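import Pool.Agent.Helper61.EP.StC
import Pool.Agent.Helper81.RL.M_PCR

/-!
# Project EP (MP_cb927e_an), module CCR: the core estimate
-/

set_option autoImplicit false

open MeasureTheory Set Filter Topology
open scoped ENNReal RealInnerProductSpace

namespace Pool.Agent.Helper12.EP

open Pool.Agent.Helper68.LM (Pl BB Bd Av HL ft fm DQ)
open Pool.Agent.Helper20.RG Pool.Agent.Helper20.RL Pool.Agent.Helper61.EP
open Pool.Agent.Helper81.RL (PCR_Mt PCR_poly PCR_BB)

/-- Pigeonhole over the size of the terms. -/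
theorem CCR_pig {u : ℕ} (hu : 1 ≤ u) (v : ℕ → ℝ) (r : ℝ) (hr : 2 * (1 / 2 : ℝ) ^ u ≤ r)
    (hv1 : ∀ j < 2 ^ u, v j ≤ 1) (hs : r ≤ ∑ j ∈ Finset.range (2 ^ u), v j) :
    ∃ i ≤ 2 * u, max 1 (r / (4 * (2 * u + 1) * (1 / 2) ^ (i + 1))) ≤
      (((Finset.range (2 ^ u)).filter (fun j => ((1 : ℝ) / 2) ^ (i + 1) ≤ v j)).card : ℝ) := by
  by_contra hcon
  push Not at hcon
  have hu0 : (1 : ℝ) ≤ u := by exact_mod_cast hu
  have hr0 : 0 < r := lt_of_lt_of_le (by positivity) hr
  set N : ℕ := 2 ^ u with hN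
  have hNR : ((N : ℕ) : ℝ) = 2 ^ u := by rw [hN]; push_cast; rfl
  have hNpos : (0 : ℝ) < N := by rw [hNR]; positivity
  set δ : ℝ := r / (2 * N) with hδ
  have hδ0 : 0 < δ := by rw [hδ]; positivity
  set J := (Finset.range N).filter (fun j => δ ≤ v j) with hJ
  -- the small terms
  have h1 : ∑ j ∈ Finset.range N, v j ≤ ∑ j ∈ J, v j + r / 2 := by
    rw [← Finset.sum_filter_add_sum_filter_not (Finset.range N) (fun j => δ ≤ v j)]
    refine add_le_add le_rfl ?_
    have h2 : ∑ j ∈ (Finset.range N).filter (fun j => ¬ δ ≤ v j), v j ≤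
        ∑ _j ∈ (Finset.range N).filter (fun j => ¬ δ ≤ v j), δ := by
      refine Finset.sum_le_sum fun j hj => ?_
      rw [Finset.mem_filter] at hj
      exact (not_le.1 hj.2).le
    refine h2.trans ?_
    rw [Finset.sum_const, nsmul_eq_mul]
    have h3 : (((Finset.range N).filter (fun j => ¬ δ ≤ v j)).card : ℝ) ≤ N := by
      have := Finset.card_filter_le (Finset.range N) (fun j => ¬ δ ≤ v j)
      rw [Finset.card_range] at this
      exact_mod_cast this
    calc _ ≤ (N : ℝ) * δ := mul_le_mul_of_nonneg_right h3 hδ0.le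
      _ = r / 2 := by
          rw [hδ]
          field_simp
  -- the classes
  set Ji : ℕ → Finset ℕ := fun i => (Finset.range N).filter
    (fun j => ((1 : ℝ) / 2) ^ (i + 1) ≤ v j ∧ v j ≤ (1 / 2) ^ i) with hJi
  have hidx : ∀ j ∈ J, ∃ i ∈ Finset.range (2 * u + 1),
      ((1 : ℝ) / 2) ^ (i + 1) ≤ v j ∧ v j ≤ (1 / 2) ^ i := by
    intro j hj
    rw [hJ, Finset.mem_filter, Finset.mem_range] at hj
    obtain ⟨hjN, hjv⟩ := hj
    obtain ⟨i, hi1, hi2⟩ := exists_nat_pow_near_of_lt_one (x := v j) (y := 1 / 2)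
      (by linarith) (hv1 j hjN) (by norm_num) (by norm_num)
    refine ⟨i, ?_, hi1.le, hi2⟩
    rw [Finset.mem_range]
    have h4 : δ ≤ (1 / 2 : ℝ) ^ i := hjv.trans hi2
    have h5 : (1 / 2 : ℝ) ^ (2 * u) ≤ δ := by
      rw [hδ, le_div_iff₀ (by positivity), hNR]
      have h6 : ((1 : ℝ) / 2) ^ (2 * u) * (2 * 2 ^ u) = 2 * (1 / 2) ^ u := by
        rw [two_mul u, pow_add]
        have : ((1 : ℝ) / 2) ^ u * 2 ^ u = 1 := by rw [← mul_pow]; norm_num
        calc ((1 : ℝ) / 2) ^ u * (1 / 2) ^ u * (2 * 2 ^ u) =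
              2 * (1 / 2) ^ u * ((1 / 2) ^ u * 2 ^ u) := by ring
          _ = 2 * (1 / 2) ^ u := by rw [this, mul_one]
      rw [h6]
      exact hr
    have h8 := (pow_le_pow_iff_right_of_lt_one₀ (show (0 : ℝ) < 1 / 2 by norm_num)
      (show (1 / 2 : ℝ) < 1 by norm_num)).1 (h5.trans h4)
    omega
  have h2 : ∑ j ∈ J, v j ≤ ∑ i ∈ Finset.range (2 * u + 1), ∑ j ∈ Ji i, v j := by
    have hnn : ∀ j ∈ Finset.range N, ∀ i : ℕ,
        0 ≤ (if ((1 : ℝ) / 2) ^ (i + 1) ≤ v j ∧ v j ≤ (1 / 2) ^ i then v j else 0) := by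
      intro j hj i
      split_ifs with h
      · exact le_trans (by positivity) h.1
      · exact le_rfl
    have hJN : J ⊆ Finset.range N := Finset.filter_subset _ _
    calc ∑ j ∈ J, v j ≤ ∑ j ∈ J, ∑ i ∈ Finset.range (2 * u + 1),
          (if ((1 : ℝ) / 2) ^ (i + 1) ≤ v j ∧ v j ≤ (1 / 2) ^ i then v j else 0) := by
          refine Finset.sum_le_sum fun j hj => ?_
          obtain ⟨i, hi, hij⟩ := hidx j hj
          refine le_trans ?_ (Finset.single_le_sum (f := fun i =>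
            (if ((1 : ℝ) / 2) ^ (i + 1) ≤ v j ∧ v j ≤ (1 / 2) ^ i then v j else 0))
            (fun i _ => hnn j (hJN hj) i) hi)
          rw [if_pos hij]
      _ ≤ ∑ j ∈ Finset.range N, ∑ i ∈ Finset.range (2 * u + 1),
          (if ((1 : ℝ) / 2) ^ (i + 1) ≤ v j ∧ v j ≤ (1 / 2) ^ i then v j else 0) :=
          Finset.sum_le_sum_of_subset_of_nonneg hJN
            fun j hj _ => Finset.sum_nonneg fun i _ => hnn j hj i
      _ = ∑ i ∈ Finset.range (2 * u + 1), ∑ j ∈ Finset.range N,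
          (if ((1 : ℝ) / 2) ^ (i + 1) ≤ v j ∧ v j ≤ (1 / 2) ^ i then v j else 0) :=
          Finset.sum_comm
      _ = _ := by
          refine Finset.sum_congr rfl fun i _ => ?_
          rw [hJi]
          simp only
          rw [Finset.sum_filter]
  have h3 : ∀ i ∈ Finset.range (2 * u + 1), ∑ j ∈ Ji i, v j < r / (2 * (2 * u + 1)) := by
    intro i hi
    rw [Finset.mem_range] at hi
    have h4 := hcon i (by omega)
    have hpi : (0 : ℝ) < (1 / 2) ^ i := by positivity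
    have h5 : ∑ j ∈ Ji i, v j ≤ ((Ji i).card : ℝ) * (1 / 2) ^ i := by
      rw [← nsmul_eq_mul, ← Finset.sum_const]
      refine Finset.sum_le_sum fun j hj => ?_
      rw [hJi] at hj
      simp only [Finset.mem_filter] at hj
      exact hj.2.2
    refine lt_of_le_of_lt h5 ?_
    have h6 : (Ji i).card ≤ ((Finset.range N).filter
        (fun j => ((1 : ℝ) / 2) ^ (i + 1) ≤ v j)).card := by
      apply Finset.card_le_card
      intro j hj
      rw [hJi] at hj
      simp only [Finset.mem_filter] at hj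
      exact Finset.mem_filter.2 ⟨hj.1, hj.2.1⟩
    rcases Nat.eq_zero_or_pos (Ji i).card with h7 | h7
    · rw [h7, Nat.cast_zero, zero_mul]
      positivity
    · have h8 : (1 : ℝ) ≤ (((Finset.range N).filter
          (fun j => ((1 : ℝ) / 2) ^ (i + 1) ≤ v j)).card : ℝ) := by
        exact_mod_cast (show 1 ≤ _ from le_trans h7 h6)
      have h9 : (((Finset.range N).filter
          (fun j => ((1 : ℝ) / 2) ^ (i + 1) ≤ v j)).card : ℝ) <
            r / (4 * (2 * u + 1) * (1 / 2) ^ (i + 1)) := by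
        rcases lt_max_iff.1 h4 with h10 | h10
        · linarith
        · exact h10
      have h10 : ((Ji i).card : ℝ) < r / (4 * (2 * u + 1) * (1 / 2) ^ (i + 1)) := by
        have : ((Ji i).card : ℝ) ≤ (((Finset.range N).filter
          (fun j => ((1 : ℝ) / 2) ^ (i + 1) ≤ v j)).card : ℝ) := by exact_mod_cast h6
        linarith
      calc ((Ji i).card : ℝ) * (1 / 2) ^ i < r / (4 * (2 * u + 1) * (1 / 2) ^ (i + 1)) * (1 / 2) ^ i :=
            mul_lt_mul_of_pos_right h10 hpi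
        _ = r / (2 * (2 * u + 1)) := by
            have h11 : ((1 : ℝ) / 2) ^ (i + 1) = (1 / 2) ^ i * (1 / 2) := pow_succ _ _
            rw [h11]
            field_simp
            norm_num
  have h4 : ∑ i ∈ Finset.range (2 * u + 1), ∑ j ∈ Ji i, v j < r / 2 := by
    refine (Finset.sum_lt_sum_of_nonempty ⟨0, Finset.mem_range.2 (by omega)⟩ h3).trans_le ?_
    rw [Finset.sum_const, Finset.card_range, nsmul_eq_mul]
    push_cast
    apply le_of_eq
    field_simp
  linarith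

/-- large `u` -/
theorem CCR_large {κ : ℝ} (hκ : 0 < κ) :
    ∃ u₀ : ℕ, ∀ u : ℕ, u₀ ≤ u → 14256 * (u : ℝ) ^ 3 ≤ (2 : ℝ) ^ (κ * u) := by
  have hr1 : (1 : ℝ) < (2 : ℝ) ^ κ := Real.one_lt_rpow (by norm_num) hκ
  have h := tendsto_pow_const_div_const_pow_of_one_lt 3 hr1
  have h1 := h.eventually (Iio_mem_nhds (show (0 : ℝ) < 1 / 14256 by norm_num))
  obtain ⟨u₀, h2⟩ := eventually_atTop.1 h1
  refine ⟨u₀, fun u hu => ?_⟩
  have h3 := h2 u hu
  have hru : (0 : ℝ) < ((2 : ℝ) ^ κ) ^ u := by positivity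
  have h4 : (u : ℝ) ^ 3 / ((2 : ℝ) ^ κ) ^ u < 1 / 14256 := h3
  rw [div_lt_iff₀ hru] at h4
  rw [Real.rpow_mul_natCast (by norm_num : (0 : ℝ) ≤ 2)]
  linarith

theorem hCCR (hYB : StYB) (hLGY : StLGY) (hLPG : StLPG) (hCCT : StCCT) : StCCR := by
  intro A p s γ Cf ε ε₂ hA hEx hCf hε hε₂
  obtain ⟨u₁, δ, C, ε', hδ, hC, hε', hmain⟩ := hCCT A p s γ Cf ε (ε₂ / 2) hA hEx hCf hε
    (by linarith)
  have hr1 : (1 : ℝ) < (2 : ℝ) ^ (ε' / 2) := Real.one_lt_rpow (by norm_num) (by linarith)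
  obtain ⟨C₀, hC₀, hpoly⟩ := PCR_poly hr1
  have hκ0 : 0 < min (min (δ / 2) (ε₂ / 4)) (1 / 2) := by
    refine lt_min (lt_min ?_ ?_) ?_ <;> linarith
  obtain ⟨u₂, hlarge⟩ := CCR_large hκ0
  set κ : ℝ := min (min (δ / 2) (ε₂ / 4)) (1 / 2) with hκ
  have hκ1 : κ ≤ δ / 2 := (min_le_left _ _).trans (min_le_left _ _)
  have hκ2 : κ ≤ ε₂ / 4 := (min_le_left _ _).trans (min_le_right _ _)
  have hκ3 : κ ≤ 1 / 2 := min_le_right _ _
  refine ⟨max (max u₁ u₂) 2, κ, 198 * C₀ * C, ε' / 2, hκ0, by positivity, by linarith, ?_⟩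
  intro u K t sl c m F hu hSlo hcm hK htK hF hCtl
  have hu1 : u₁ ≤ u := (le_max_left _ _).trans ((le_max_left _ _).trans hu)
  have hu2 : u₂ ≤ u := (le_max_right _ _).trans ((le_max_left _ _).trans hu)
  have hu3 : 2 ≤ u := (le_max_right _ _).trans hu
  have huR : (2 : ℝ) ≤ u := by exact_mod_cast hu3
  have hup : (0 : ℝ) < u := by linarith
  have hMt := PCR_Mt (show 1 ≤ u by omega)
  have hMt0 : (0 : ℝ) < (Mt u : ℝ) + 2 := by positivity
  have hlg := hlarge u hu2
  classical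
  set r : ℝ := (2 : ℝ) ^ (-(κ * u)) with hr
  have hr0 : 0 < r := by rw [hr]; positivity
  have hrr : 2 * (1 / 2 : ℝ) ^ u ≤ r := by
    have h1 : (2 : ℝ) * (1 / 2) ^ u = (2 : ℝ) ^ (1 - (u : ℝ)) := by
      rw [Real.rpow_sub (by norm_num), Real.rpow_one, Real.rpow_natCast, one_div, inv_pow]
      rfl
    rw [h1, hr]
    apply Real.rpow_le_rpow_of_exponent_le (by norm_num)
    nlinarith
  set η : ℕ → ℝ := fun i => (1 / 2 : ℝ) ^ (i + 1) / 18 with hη
  set m₁ : ℕ → ℝ := fun i => max 1 (r / (4 * (2 * u + 1) * (1 / 2) ^ (i + 1))) / ((Mt u : ℝ) + 2)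
    with hm₁
  set S : ℕ → ℕ → ℕ → Set Pl := fun i τ k => {x | m₁ i ≤ ({j : ℕ | j < 2 ^ u ∧
        Hit (sl j) (c j) (m j) u k (CU F (sl j) (m j) u (η i) τ k) x}.ncard : ℝ)} with hS
  set X : ℕ → Set Pl := fun k => {x | r ≤ trS (2 ^ u) t (fun j =>
        Y (sl j) (c j) (m j) (1 / (2 : ℝ) ^ u) k (F.indicator 1) x)} with hX
  set I := (Finset.range (2 * u + 1)).filter (fun i => Nn u δ (η i) (m₁ i) ∧
    ((2 : ℝ) ^ (ε₂ / 2 * u) ≤ m₁ i ∨ (K : ℝ) ≤ Cf * (2 : ℝ) ^ ((p - ε) * u))) with hI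
  have hℓ : (0 : ℝ) < 1 / 2 ^ u := by positivity
  -- lower bound for `m₁`
  have hm₁i : ∀ i : ℕ, r / (792 * (u : ℝ) ^ 3 * (1 / 2) ^ (i + 1)) ≤ m₁ i := by
    intro i
    rw [hm₁]
    simp only
    have g1 : (2 * (u : ℝ) + 1) ≤ 3 * u := by linarith
    calc r / (792 * (u : ℝ) ^ 3 * (1 / 2) ^ (i + 1)) =
          r / (4 * (3 * u) * (1 / 2) ^ (i + 1)) / (66 * (u : ℝ) ^ 2) := by
          rw [div_div]
          congr 1
          ring
      _ ≤ r / (4 * (2 * u + 1) * (1 / 2) ^ (i + 1)) / (66 * (u : ℝ) ^ 2) := by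
          apply div_le_div_of_nonneg_right _ (by positivity)
          apply div_le_div_of_nonneg_left hr0.le (by positivity)
          apply mul_le_mul_of_nonneg_right _ (by positivity)
          linarith
      _ ≤ r / (4 * (2 * u + 1) * (1 / 2) ^ (i + 1)) / ((Mt u : ℝ) + 2) :=
          div_le_div_of_nonneg_left (by positivity) hMt0 hMt
      _ ≤ _ := div_le_div_of_nonneg_right (le_max_right _ _) hMt0.le
  -- the covering
  have hcov : ∀ k : ℕ, X k ⊆ ⋃ i ∈ I, ⋃ τ ∈ Finset.range (Mt u + 2), S i τ k := by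
    intro k x hx
    have hv : ∀ j < 2 ^ u, 0 ≤ Y (sl j) (c j) (m j) (1 / (2 : ℝ) ^ u) k (F.indicator 1) x ∧
        Y (sl j) (c j) (m j) (1 / (2 : ℝ) ^ u) k (F.indicator 1) x ≤ 1 := by
      intro j hj
      obtain ⟨-, -, y1, y2, -⟩ := hYB (sl j) (c j) (m j) (1 / (2 : ℝ) ^ u) k (F.indicator 1)
        (hSlo.1 j hj) hℓ (PCR_BB hF)
      refine ⟨y1 (fun z => ?_) x, y2 1 (fun z => ?_) x⟩
      · exact Set.indicator_nonneg (fun _ _ => by simp) z
      · by_cases h : z ∈ F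
        · rw [Set.indicator_of_mem h]; simp
        · rw [Set.indicator_of_notMem h]; norm_num
    set w : ℕ → ℝ := fun j => if Y (sl j) (c j) (m j) (1 / (2 : ℝ) ^ u) k (F.indicator 1) x < t
      then Y (sl j) (c j) (m j) (1 / (2 : ℝ) ^ u) k (F.indicator 1) x else 0 with hw
    have hw1 : ∀ j < 2 ^ u, w j ≤ 1 := by
      intro j hj
      rw [hw]
      simp only
      split_ifs
      · exact (hv j hj).2
      · norm_num
    have hw2 : ∀ (j : ℕ) (a : ℝ), 0 < a → a ≤ w j →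
        a ≤ Y (sl j) (c j) (m j) (1 / (2 : ℝ) ^ u) k (F.indicator 1) x ∧ a < t := by
      intro j a ha haw
      rw [hw] at haw
      simp only at haw
      split_ifs at haw with h
      · exact ⟨haw, lt_of_le_of_lt haw h⟩
      · exact absurd haw (not_le.2 ha)
    obtain ⟨i, hi, hcard⟩ := CCR_pig (show 1 ≤ u by omega) w r hrr hw1 hx
    set J := (Finset.range (2 ^ u)).filter (fun j => ((1 : ℝ) / 2) ^ (i + 1) ≤ w j) with hJ
    have hηi : 0 < η i := by rw [hη]; positivity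
    have hτ : ∀ j ∈ J, ∃ τ ≤ Mt u + 1,
        Hit (sl j) (c j) (m j) u k (CU F (sl j) (m j) u (η i) τ k) x := by
      intro j hj
      rw [hJ, Finset.mem_filter, Finset.mem_range] at hj
      have g1 := hLGY (sl j) (c j) (m j) u k F ((1 / 2) ^ (i + 1)) x (hSlo.1 j hj.1)
        (hcm j hj.1).2 hF (by positivity) (hw2 j _ (by positivity) hj.2).1
      exact hLPG F (sl j) (c j) (m j) u (η i) k x (by omega) hηi g1
    set T : ℕ → Finset ℕ := fun τ => (Finset.range (2 ^ u)).filter (fun j =>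
      Hit (sl j) (c j) (m j) u k (CU F (sl j) (m j) u (η i) τ k) x) with hT
    have hJT : J ⊆ (Finset.range (Mt u + 2)).biUnion T := by
      intro j hj
      obtain ⟨τ, hτ1, hτ2⟩ := hτ j hj
      rw [Finset.mem_biUnion]
      refine ⟨τ, Finset.mem_range.2 (by omega), ?_⟩
      rw [hT]
      simp only [Finset.mem_filter]
      exact ⟨(Finset.mem_filter.1 hj).1, hτ2⟩
    have hex : ∃ τ ∈ Finset.range (Mt u + 2), m₁ i ≤ ((T τ).card : ℝ) := by
      by_contra hcon
      push Not at hcon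
      have g1 : (J.card : ℝ) ≤ ∑ τ ∈ Finset.range (Mt u + 2), ((T τ).card : ℝ) := by
        have := (Finset.card_le_card hJT).trans Finset.card_biUnion_le
        exact_mod_cast this
      have g2 : ∑ τ ∈ Finset.range (Mt u + 2), ((T τ).card : ℝ) <
          ∑ _τ ∈ Finset.range (Mt u + 2), m₁ i :=
        Finset.sum_lt_sum_of_nonempty ⟨0, Finset.mem_range.2 (by omega)⟩ hcon
      rw [Finset.sum_const, Finset.card_range, nsmul_eq_mul] at g2
      have g3 : (((Mt u + 2 : ℕ) : ℝ)) * m₁ i =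
          max 1 (r / (4 * (2 * u + 1) * (1 / 2) ^ (i + 1))) := by
        rw [hm₁]
        push_cast
        field_simp
      rw [g3] at g2
      linarith
    obtain ⟨τ, hτr, hτc⟩ := hex
    have hTs : {j : ℕ | j < 2 ^ u ∧
        Hit (sl j) (c j) (m j) u k (CU F (sl j) (m j) u (η i) τ k) x} = ↑(T τ) := by
      ext j
      rw [hT]
      simp
    have hTc : ((T τ).card : ℝ) ≤ 2 ^ u := by
      have : (T τ).card ≤ 2 ^ u := by
        have := Finset.card_filter_le (Finset.range (2 ^ u)) (fun j =>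
          Hit (sl j) (c j) (m j) u k (CU F (sl j) (m j) u (η i) τ k) x)
        rwa [Finset.card_range] at this
      exact_mod_cast this
    simp only [Set.mem_iUnion]
    refine ⟨i, ?_, τ, hτr, ?_⟩
    · rw [hI, Finset.mem_filter, Finset.mem_range]
      refine ⟨by omega, ⟨hηi, ?_, ?_, hτc.trans hTc⟩, ?_⟩
      · rw [hη]
        have : ((1 : ℝ) / 2) ^ (i + 1) ≤ 1 := pow_le_one₀ (by norm_num) (by norm_num)
        simp only
        linarith
      · -- `2^(-δu) ≤ m₁ η`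
        have g1 : r / (792 * (u : ℝ) ^ 3 * (1 / 2) ^ (i + 1)) * ((1 / 2) ^ (i + 1) / 18) ≤
            m₁ i * η i := mul_le_mul_of_nonneg_right (hm₁i i) (by positivity)
        refine le_trans ?_ g1
        have g2 : r / (792 * (u : ℝ) ^ 3 * (1 / 2) ^ (i + 1)) * ((1 / 2) ^ (i + 1) / 18) =
            r / (14256 * (u : ℝ) ^ 3) := by
          field_simp
          norm_num
        rw [g2, le_div_iff₀ (by positivity)]
        calc (2 : ℝ) ^ (-(δ * u)) * (14256 * (u : ℝ) ^ 3) ≤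
              (2 : ℝ) ^ (-(δ * u)) * (2 : ℝ) ^ (κ * u) :=
              mul_le_mul_of_nonneg_left hlg (by positivity)
          _ = (2 : ℝ) ^ (-(δ * u) + κ * u) := by rw [← Real.rpow_add (by norm_num)]
          _ ≤ r := by
              rw [hr]
              apply Real.rpow_le_rpow_of_exponent_le (by norm_num)
              nlinarith
      · -- many hits or few scales
        rcases htK with ht | hK2
        · left
          have hJne : J.Nonempty := by
            rw [← Finset.card_pos]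
            have : (1 : ℝ) ≤ J.card := (le_max_left _ _).trans hcard
            exact_mod_cast this
          obtain ⟨j, hj⟩ := hJne
          rw [hJ, Finset.mem_filter] at hj
          have g1 := ((hw2 j _ (by positivity) hj.2).2.le).trans ht
          refine le_trans ?_ (hm₁i i)
          rw [le_div_iff₀ (by positivity)]
          have g3 : 792 * (u : ℝ) ^ 3 ≤ (2 : ℝ) ^ (κ * u) := by
            refine le_trans ?_ hlg
            have : (0 : ℝ) ≤ (u : ℝ) ^ 3 := by positivity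
            linarith
          calc (2 : ℝ) ^ (ε₂ / 2 * u) * (792 * (u : ℝ) ^ 3 * (1 / 2) ^ (i + 1)) ≤
                (2 : ℝ) ^ (ε₂ / 2 * u) * ((2 : ℝ) ^ (κ * u) * (2 : ℝ) ^ (-(ε₂ * u))) := by
                apply mul_le_mul_of_nonneg_left _ (by positivity)
                exact mul_le_mul g3 g1 (by positivity) (by positivity)
            _ = (2 : ℝ) ^ (ε₂ / 2 * u + (κ * u + -(ε₂ * u))) := by
                rw [← Real.rpow_add (by norm_num), ← Real.rpow_add (by norm_num)]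
            _ ≤ r := by
                rw [hr]
                apply Real.rpow_le_rpow_of_exponent_le (by norm_num)
                nlinarith
        · right
          exact hK2
    · rw [hS]
      show m₁ i ≤ _
      rw [hTs, Set.ncard_coe_finset]
      exact hτc
  -- the sum
  set B : ℝ≥0∞ := ENNReal.ofReal (C * (2 : ℝ) ^ ((p - ε') * u)) * volume F with hB
  have hstep : ∀ i ∈ I, ∀ τ ∈ Finset.range (Mt u + 2),
      ∑ k ∈ Finset.range K, volume (S i τ k) ≤ B := by
    intro i hi τ hτ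
    rw [hI, Finset.mem_filter] at hi
    rw [Finset.mem_range] at hτ
    exact hmain u K τ sl c m F (η i) (m₁ i) hu1 hu3 hSlo hcm hK hi.2.2 hF hCtl hi.2.1 (by omega)
  have hbound : ∑ k ∈ Finset.range K, volume (X k) ≤
      ∑ i ∈ I, ∑ τ ∈ Finset.range (Mt u + 2), ∑ k ∈ Finset.range K, volume (S i τ k) := by
    have g1 : ∀ k ∈ Finset.range K, volume (X k) ≤
        ∑ i ∈ I, ∑ τ ∈ Finset.range (Mt u + 2), volume (S i τ k) := by
      intro k _
      refine (measure_mono (hcov k)).trans ?_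
      refine (measure_biUnion_finset_le _ _).trans ?_
      refine Finset.sum_le_sum fun i _ => ?_
      exact measure_biUnion_finset_le _ _
    refine (Finset.sum_le_sum g1).trans ?_
    rw [Finset.sum_comm]
    refine Finset.sum_le_sum fun i _ => ?_
    rw [Finset.sum_comm]
  refine hbound.trans ?_
  have h1 : ∑ i ∈ I, ∑ τ ∈ Finset.range (Mt u + 2), ∑ k ∈ Finset.range K, volume (S i τ k) ≤
      ((2 * u + 1 : ℕ) : ℝ≥0∞) * (((Mt u + 2 : ℕ) : ℝ≥0∞) * B) := by
    have g1 : ∀ i ∈ I, ∑ τ ∈ Finset.range (Mt u + 2), ∑ k ∈ Finset.range K, volume (S i τ k) ≤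
        ((Mt u + 2 : ℕ) : ℝ≥0∞) * B := by
      intro i hi
      refine (Finset.sum_le_sum (hstep i hi)).trans ?_
      rw [Finset.sum_const, Finset.card_range, nsmul_eq_mul]
    refine (Finset.sum_le_sum g1).trans ?_
    rw [Finset.sum_const, nsmul_eq_mul]
    have g2 : I.card ≤ 2 * u + 1 := by
      have := Finset.card_filter_le (Finset.range (2 * u + 1)) (fun i => Nn u δ (η i) (m₁ i) ∧
        ((2 : ℝ) ^ (ε₂ / 2 * u) ≤ m₁ i ∨ (K : ℝ) ≤ Cf * (2 : ℝ) ^ ((p - ε) * u)))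
      rwa [Finset.card_range] at this
    exact mul_le_mul_left (by exact_mod_cast g2) _
  refine h1.trans ?_
  rw [hB, ← mul_assoc, ← mul_assoc]
  apply mul_le_mul_left
  rw [← Nat.cast_mul, ← ENNReal.ofReal_natCast, ← ENNReal.ofReal_mul (by positivity)]
  apply ENNReal.ofReal_le_ofReal
  have h2 : (((2 * u + 1) * (Mt u + 2) : ℕ) : ℝ) ≤ 198 * (u : ℝ) ^ 3 := by
    push_cast
    have g1 : (2 * (u : ℝ) + 1) ≤ 3 * u := by linarith
    calc (2 * (u : ℝ) + 1) * ((Mt u : ℝ) + 2) ≤ (3 * u) * (66 * (u : ℝ) ^ 2) :=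
          mul_le_mul g1 hMt hMt0.le (by positivity)
      _ = 198 * (u : ℝ) ^ 3 := by ring
  have h3 := hpoly u
  rw [← Real.rpow_mul_natCast (by norm_num : (0 : ℝ) ≤ 2)] at h3
  have h4 : (0 : ℝ) < C * (2 : ℝ) ^ ((p - ε') * u) := by positivity
  calc (((2 * u + 1) * (Mt u + 2) : ℕ) : ℝ) * (C * (2 : ℝ) ^ ((p - ε') * u)) ≤
        198 * (u : ℝ) ^ 3 * (C * (2 : ℝ) ^ ((p - ε') * u)) := mul_le_mul_of_nonneg_right h2 h4.le
    _ ≤ 198 * (C₀ * (2 : ℝ) ^ (ε' / 2 * (u : ℝ))) * (C * (2 : ℝ) ^ ((p - ε') * u)) := by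
        apply mul_le_mul_of_nonneg_right _ h4.le
        linarith
    _ = 198 * C₀ * C * (2 : ℝ) ^ ((p - ε' / 2) * u) := by
        have : (2 : ℝ) ^ ((p - ε' / 2) * u) =
            (2 : ℝ) ^ (ε' / 2 * (u : ℝ)) * (2 : ℝ) ^ ((p - ε') * u) := by
          rw [← Real.rpow_add (by norm_num)]
          congr 1
          ring
        rw [this]
        ring

end Pool.Agent.Helper12.EP
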