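import Pool.Agent.Helper68.EP.St2

/-!
# Project EP (MP_cb927e_an), module ECO: the ridges over a dyadic interval
-/

set_option autoImplicit false

open MeasureTheory Set Filter Topology
open scoped ENNReal RealInnerProductSpace

namespace Pool.Agent.Helper12.EP

open Pool.Agent.Helper68.LM (Pl DQ)
open Pool.Agent.Helper68.EP Pool.Agent.Helper20.RG
open Pool.Agent.Helper20.RL (RQ Rich BM Fml)

/-- the cell of index `(w, i)` over the dyadic interval of index `n` -/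
def Cc (s : ℝ) (a n : ℤ) (p : ℤ × ℤ) : Set Pl :=
  {x | ⌊x 0 / (2 : ℝ) ^ a⌋ = n ∧ ⌊pr s x / (2 : ℝ) ^ p.1⌋ = p.2}

/-- the cell is rich -/
def RR (F : Set Pl) (s : ℝ) (a n : ℤ) (ϑ : ℝ) (p : ℤ × ℤ) : Prop :=
  ENNReal.ofReal (ϑ * (2 : ℝ) ^ (a + p.1)) ≤ volume (F ∩ Cc s a n p)

/-- the neighbourhood of the dyadic interval -/
def Nb (p : ℤ × ℤ) : Set ℝ :=
  Ico (((p.2 : ℝ) - 3) * (2 : ℝ) ^ p.1) (((p.2 : ℝ) + 4) * (2 : ℝ) ^ p.1)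

theorem rq_eq {s : ℝ} {a n w : ℤ} {y : Pl} (hy : ⌊y 0 / (2 : ℝ) ^ a⌋ = n) :
    RQ s a w y = Cc s a n (w, ⌊pr s y / (2 : ℝ) ^ w⌋) := by
  unfold RQ Cc
  rw [hy]

theorem rich_iff {F : Set Pl} {s : ℝ} {a n w : ℤ} {ϑ : ℝ} {y : Pl}
    (hy : ⌊y 0 / (2 : ℝ) ^ a⌋ = n) :
    Rich F s a w ϑ y ↔ RR F s a n ϑ (w, ⌊pr s y / (2 : ℝ) ^ w⌋) := by
  unfold Rich RR
  rw [rq_eq hy]

theorem pr_pt (hPT : StPT) (s x t : ℝ) : pr s (pt x (t + s * x)) = t := by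
  unfold pr
  rw [(hPT.1 x (t + s * x)).1, (hPT.1 x (t + s * x)).2]
  ring

theorem fl_pt (hPT : StPT) (a n : ℤ) (u : ℝ) :
    ⌊(pt ((n : ℝ) * (2 : ℝ) ^ a) u) 0 / (2 : ℝ) ^ a⌋ = n := by
  rw [(hPT.1 _ _).1, mul_div_assoc, div_self (by positivity), mul_one, Int.floor_intCast]

theorem fl_bd {w : ℤ} {t : ℝ} {i : ℤ} (h : ⌊t / (2 : ℝ) ^ w⌋ = i) :
    (i : ℝ) * (2 : ℝ) ^ w ≤ t ∧ t < ((i : ℝ) + 1) * (2 : ℝ) ^ w := by
  have hp : (0 : ℝ) < (2 : ℝ) ^ w := by positivity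
  obtain ⟨h1, h2⟩ := Int.floor_eq_iff.1 h
  exact ⟨(le_div_iff₀ hp).1 h1, (div_lt_iff₀ hp).1 h2⟩

theorem fl_of {w : ℤ} {t : ℝ} {i : ℤ} (h1 : (i : ℝ) * (2 : ℝ) ^ w ≤ t)
    (h2 : t < ((i : ℝ) + 1) * (2 : ℝ) ^ w) : ⌊t / (2 : ℝ) ^ w⌋ = i := by
  have hp : (0 : ℝ) < (2 : ℝ) ^ w := by positivity
  exact Int.floor_eq_iff.2 ⟨(le_div_iff₀ hp).2 h1, (div_lt_iff₀ hp).2 h2⟩

/-- the ridge set as a countable union of intervals -/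
theorem os_eq (hPT : StPT) (F : Set Pl) (s : ℝ) (a b : ℤ) (ϑ : ℝ) (n : ℤ) :
    Os F s a b ϑ n = ⋃ p : {p : ℤ × ℤ // p.1 ≤ b ∧ RR F s a n ϑ p}, Nb p.1 := by
  ext ρ
  rw [mem_iUnion]
  constructor
  · rintro ⟨y, w, hw, hr, hy, hρ⟩
    refine ⟨⟨(w, ⌊pr s y / (2 : ℝ) ^ w⌋), hw, (rich_iff hy).1 hr⟩, ?_⟩
    obtain ⟨h1, h2⟩ := fl_bd (w := w) (t := pr s y) rfl
    obtain ⟨h3, h4⟩ := abs_le.1 hρ
    constructor
    · show ((⌊pr s y / (2 : ℝ) ^ w⌋ : ℝ) - 3) * (2 : ℝ) ^ w ≤ ρ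
      linarith
    · show ρ < ((⌊pr s y / (2 : ℝ) ^ w⌋ : ℝ) + 4) * (2 : ℝ) ^ w
      linarith
  · rintro ⟨⟨⟨w, i⟩, hw, hr⟩, h1, h2⟩
    simp only at hw h1 h2
    have hp : (0 : ℝ) < (2 : ℝ) ^ w := by positivity
    set t : ℝ := max ((i : ℝ) * (2 : ℝ) ^ w) (ρ - 3 * (2 : ℝ) ^ w) with ht
    have ht1 : (i : ℝ) * (2 : ℝ) ^ w ≤ t := le_max_left _ _
    have ht2 : t < ((i : ℝ) + 1) * (2 : ℝ) ^ w := by
      refine max_lt ?_ ?_ <;> linarith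
    have ht3 : |ρ - t| ≤ 3 * (2 : ℝ) ^ w := by
      rw [abs_le]
      constructor
      · have : t ≤ ρ + 3 * (2 : ℝ) ^ w := max_le (by linarith) (by linarith)
        linarith
      · have : ρ - 3 * (2 : ℝ) ^ w ≤ t := le_max_right _ _
        linarith
    have hfl := fl_pt hPT a n (t + s * ((n : ℝ) * (2 : ℝ) ^ a))
    have hpr := pr_pt hPT s ((n : ℝ) * (2 : ℝ) ^ a) t
    refine ⟨pt ((n : ℝ) * (2 : ℝ) ^ a) (t + s * ((n : ℝ) * (2 : ℝ) ^ a)), w, hw, ?_, hfl, ?_⟩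
    · rw [rich_iff hfl, hpr, fl_of ht1 ht2]
      exact hr
    · rw [hpr]
      exact ht3

/-- nested dyadic intervals -/
theorem nest (hPT : StPT) (hLGR : Pool.Agent.Helper20.RL.StLGR) {w w' : ℤ} (hw : w ≤ w')
    {t t' : ℝ} (h : ⌊t' / (2 : ℝ) ^ w⌋ = ⌊t / (2 : ℝ) ^ w⌋) :
    ⌊t' / (2 : ℝ) ^ w'⌋ = ⌊t / (2 : ℝ) ^ w'⌋ := by
  have e : ∀ u : ℝ, pr 0 (pt 0 u) = u := by
    intro u
    unfold pr
    rw [(hPT.1 0 u).1, (hPT.1 0 u).2]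
    ring
  have h1 : pt 0 t' ∈ RQ 0 0 w (pt 0 t) := by
    refine ⟨by rw [(hPT.1 0 t).1, (hPT.1 0 t').1], ?_⟩
    rw [e, e]
    exact h
  have h2 := (hLGR.2.2.1 0 0 w 0 w' (pt 0 t) le_rfl hw h1).2
  rwa [e, e] at h2

theorem cc_meas (hPT : StPT) (hLGR : Pool.Agent.Helper20.RL.StLGR) (s : ℝ) (a n : ℤ)
    (p : ℤ × ℤ) : MeasurableSet (Cc s a n p) := by
  have hfl := fl_pt hPT a n (((p.2 : ℝ) * (2 : ℝ) ^ p.1) + s * ((n : ℝ) * (2 : ℝ) ^ a))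
  have hpr := pr_pt hPT s ((n : ℝ) * (2 : ℝ) ^ a) ((p.2 : ℝ) * (2 : ℝ) ^ p.1)
  have h := (hLGR.1 s a p.1
    (pt ((n : ℝ) * (2 : ℝ) ^ a) (((p.2 : ℝ) * (2 : ℝ) ^ p.1) + s * ((n : ℝ) * (2 : ℝ) ^ a)))).1
  rw [rq_eq hfl, hpr] at h
  have e : ⌊(p.2 : ℝ) * (2 : ℝ) ^ p.1 / (2 : ℝ) ^ p.1⌋ = p.2 := by
    rw [mul_div_assoc, div_self (by positivity), mul_one, Int.floor_intCast]
  rwa [e] at h

/-- the measure of `F` in a parallelogram -/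
theorem par_le (hPT : StPT) (F : Set Pl) (s : ℝ) (a b n : ℤ) (D c r : ℝ) (hs : |s| ≤ 1)
    (hab : b ≤ a) (hD : 0 < D)
    (hF : ∀ y : Pl, volume (F ∩ DQ b y) ≤ ENNReal.ofReal (D * (4 : ℝ) ^ b))
    (hr : (2 : ℝ) ^ b ≤ r) :
    volume (F ∩ {x : Pl | ⌊x 0 / (2 : ℝ) ^ a⌋ = n ∧ |pr s x - c| ≤ r + 4 * (2 : ℝ) ^ b}) ≤
      ENNReal.ofReal (13 * D * (2 : ℝ) ^ a * r) := by
  have hb : (0 : ℝ) < (2 : ℝ) ^ b := by positivity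
  obtain ⟨K, hK⟩ : ∃ K : ℕ, (K : ℤ) = a - b := ⟨(a - b).toNat, Int.toNat_of_nonneg (by omega)⟩
  have ha : (2 : ℝ) ^ a = ((2 ^ K : ℕ) : ℝ) * (2 : ℝ) ^ b := by
    have : a = (K : ℤ) + b := by omega
    rw [this, zpow_add₀ (by norm_num), zpow_natCast]
    push_cast
    ring
  set A : ℤ → ℝ := fun m => c - r - 4 * (2 : ℝ) ^ b + s * ((m : ℝ) * (2 : ℝ) ^ b) +
    min 0 s * (2 : ℝ) ^ b with hA
  set Lg : ℝ := 2 * r + 9 * (2 : ℝ) ^ b with hLg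
  set cols : Finset ℤ := Finset.Ico (n * (2 ^ K : ℕ)) ((n + 1) * (2 ^ K : ℕ)) with hcols
  set rows : ℤ → Finset ℤ := fun m =>
    Finset.Icc ⌊A m / (2 : ℝ) ^ b⌋ ⌊(A m + Lg) / (2 : ℝ) ^ b⌋ with hrows
  have hcov : F ∩ {x : Pl | ⌊x 0 / (2 : ℝ) ^ a⌋ = n ∧ |pr s x - c| ≤ r + 4 * (2 : ℝ) ^ b} ⊆
      ⋃ m ∈ cols, ⋃ j ∈ rows m, F ∩ DQ b (pt ((m : ℝ) * (2 : ℝ) ^ b) ((j : ℝ) * (2 : ℝ) ^ b)) := by
    rintro x ⟨hxF, hx1, hx2⟩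
    obtain ⟨h1, h2⟩ := fl_bd hx1
    obtain ⟨h3, h4⟩ := fl_bd (w := b) (t := x 0) rfl
    set m := ⌊x 0 / (2 : ℝ) ^ b⌋ with hm
    have hm1 : m ∈ cols := by
      rw [hcols, Finset.mem_Ico]
      constructor
      · rw [hm, Int.le_floor, le_div_iff₀ hb]
        push_cast
        rw [ha] at h1
        push_cast at h1
        linarith
      · rw [hm, Int.floor_lt, div_lt_iff₀ hb]
        push_cast
        rw [ha] at h2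
        push_cast at h2
        linarith
    obtain ⟨h5, h6⟩ := abs_le.1 hx2
    unfold pr at h5 h6
    have hd0 : 0 ≤ x 0 - (m : ℝ) * (2 : ℝ) ^ b := by linarith
    have hd1 : x 0 - (m : ℝ) * (2 : ℝ) ^ b ≤ (2 : ℝ) ^ b := by linarith
    obtain ⟨hs1, hs2⟩ := abs_le.1 hs
    have hlow : min 0 s * (2 : ℝ) ^ b ≤ s * (x 0 - (m : ℝ) * (2 : ℝ) ^ b) := by
      rcases le_total 0 s with h | h
      · rw [min_eq_left h, zero_mul]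
        positivity
      · rw [min_eq_right h]
        exact mul_le_mul_of_nonpos_left hd1 h
    have hup : s * (x 0 - (m : ℝ) * (2 : ℝ) ^ b) ≤ (min 0 s + 1) * (2 : ℝ) ^ b := by
      rcases le_total 0 s with h | h
      · rw [min_eq_left h, zero_add, one_mul]
        calc s * (x 0 - (m : ℝ) * (2 : ℝ) ^ b) ≤ 1 * (2 : ℝ) ^ b :=
              mul_le_mul hs2 hd1 hd0 (by norm_num)
          _ = (2 : ℝ) ^ b := one_mul _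
      · rw [min_eq_right h]
        calc s * (x 0 - (m : ℝ) * (2 : ℝ) ^ b) ≤ 0 := mul_nonpos_of_nonpos_of_nonneg h hd0
          _ ≤ (s + 1) * (2 : ℝ) ^ b := mul_nonneg (by linarith) hb.le
    have e1 : s * (x 0) = s * ((m : ℝ) * (2 : ℝ) ^ b) + s * (x 0 - (m : ℝ) * (2 : ℝ) ^ b) := by
      ring
    have hj1 : ⌊x 1 / (2 : ℝ) ^ b⌋ ∈ rows m := by
      rw [hrows, Finset.mem_Icc]
      constructor
      · refine Int.floor_le_floor (div_le_div_of_nonneg_right ?_ hb.le)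
        rw [hA]
        simp only
        linarith
      · refine Int.floor_le_floor (div_le_div_of_nonneg_right ?_ hb.le)
        rw [hA, hLg]
        simp only
        linarith
    refine mem_iUnion₂.2 ⟨m, hm1, mem_iUnion₂.2 ⟨_, hj1, hxF, ?_⟩⟩
    intro i
    fin_cases i
    · show ⌊x 0 / (2 : ℝ) ^ b⌋ = ⌊(pt _ _) 0 / (2 : ℝ) ^ b⌋
      rw [(hPT.1 _ _).1, mul_div_assoc, div_self hb.ne', mul_one, Int.floor_intCast]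
    · show ⌊x 1 / (2 : ℝ) ^ b⌋ = ⌊(pt _ _) 1 / (2 : ℝ) ^ b⌋
      rw [(hPT.1 _ _).2, mul_div_assoc, div_self hb.ne', mul_one, Int.floor_intCast]
  have hcard : ∀ m : ℤ, ((rows m).card : ℝ) ≤ 13 * r / (2 : ℝ) ^ b := by
    intro m
    rw [hrows]
    simp only
    rw [Int.card_Icc]
    have f1 := Int.floor_le ((A m + Lg) / (2 : ℝ) ^ b)
    have f2 := Int.lt_floor_add_one (A m / (2 : ℝ) ^ b)
    have hle : ⌊A m / (2 : ℝ) ^ b⌋ ≤ ⌊(A m + Lg) / (2 : ℝ) ^ b⌋ := by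
      refine Int.floor_le_floor (div_le_div_of_nonneg_right ?_ hb.le)
      rw [hLg]
      linarith
    have e0 : (((⌊(A m + Lg) / (2 : ℝ) ^ b⌋ + 1 - ⌊A m / (2 : ℝ) ^ b⌋).toNat : ℕ) : ℝ) =
        (⌊(A m + Lg) / (2 : ℝ) ^ b⌋ : ℝ) + 1 - (⌊A m / (2 : ℝ) ^ b⌋ : ℝ) := by
      have h0 : ((⌊(A m + Lg) / (2 : ℝ) ^ b⌋ + 1 - ⌊A m / (2 : ℝ) ^ b⌋).toNat : ℤ) =
          ⌊(A m + Lg) / (2 : ℝ) ^ b⌋ + 1 - ⌊A m / (2 : ℝ) ^ b⌋ := Int.toNat_of_nonneg (by omega)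
      have h1 := congrArg (fun z : ℤ => (z : ℝ)) h0
      push_cast at h1
      exact_mod_cast h1
    rw [e0]
    have e2 : (A m + Lg) / (2 : ℝ) ^ b = A m / (2 : ℝ) ^ b + Lg / (2 : ℝ) ^ b := add_div _ _ _
    have e3 : Lg / (2 : ℝ) ^ b = 2 * (r / (2 : ℝ) ^ b) + 9 := by
      rw [hLg]
      field_simp
    have e4 : 1 ≤ r / (2 : ℝ) ^ b := (one_le_div hb).2 hr
    have e5 : 13 * r / (2 : ℝ) ^ b = 13 * (r / (2 : ℝ) ^ b) := mul_div_assoc _ _ _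
    rw [e5]
    have f1' : (⌊(A m + Lg) / (2 : ℝ) ^ b⌋ : ℝ) ≤
        A m / (2 : ℝ) ^ b + (2 * (r / (2 : ℝ) ^ b) + 9) := by
      rw [← e3, ← e2]
      exact f1
    linarith
  have hr0 : 0 < r := lt_of_lt_of_le hb hr
  calc volume (F ∩ {x : Pl | ⌊x 0 / (2 : ℝ) ^ a⌋ = n ∧ |pr s x - c| ≤ r + 4 * (2 : ℝ) ^ b})
      ≤ volume (⋃ m ∈ cols, ⋃ j ∈ rows m,
          F ∩ DQ b (pt ((m : ℝ) * (2 : ℝ) ^ b) ((j : ℝ) * (2 : ℝ) ^ b))) := measure_mono hcov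
    _ ≤ ∑ m ∈ cols, volume (⋃ j ∈ rows m,
          F ∩ DQ b (pt ((m : ℝ) * (2 : ℝ) ^ b) ((j : ℝ) * (2 : ℝ) ^ b))) :=
        measure_biUnion_finset_le _ _
    _ ≤ ∑ m ∈ cols, ∑ j ∈ rows m,
          volume (F ∩ DQ b (pt ((m : ℝ) * (2 : ℝ) ^ b) ((j : ℝ) * (2 : ℝ) ^ b))) :=
        Finset.sum_le_sum fun m _ => measure_biUnion_finset_le _ _
    _ ≤ ∑ m ∈ cols, ∑ j ∈ rows m, ENNReal.ofReal (D * (4 : ℝ) ^ b) :=
        Finset.sum_le_sum fun m _ => Finset.sum_le_sum fun j _ => hF _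
    _ ≤ ∑ m ∈ cols, ENNReal.ofReal (13 * r / (2 : ℝ) ^ b * (D * (4 : ℝ) ^ b)) := by
        refine Finset.sum_le_sum fun m _ => ?_
        rw [Finset.sum_const, nsmul_eq_mul,
          ENNReal.ofReal_mul (show (0 : ℝ) ≤ 13 * r / (2 : ℝ) ^ b by positivity)]
        refine mul_le_mul_left ?_ _
        rw [← ENNReal.ofReal_natCast]
        exact ENNReal.ofReal_le_ofReal (hcard m)
    _ = ENNReal.ofReal (13 * D * (2 : ℝ) ^ a * r) := by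
        rw [Finset.sum_const, nsmul_eq_mul, hcols, Int.card_Ico, ← ENNReal.ofReal_natCast,
          ← ENNReal.ofReal_mul (by positivity)]
        congr 1
        have e6 : ((n + 1) * ((2 ^ K : ℕ) : ℤ) - n * ((2 ^ K : ℕ) : ℤ)).toNat = 2 ^ K := by
          have : (n + 1) * ((2 ^ K : ℕ) : ℤ) - n * ((2 ^ K : ℕ) : ℤ) = ((2 ^ K : ℕ) : ℤ) := by ring
          rw [this, Int.toNat_natCast]
        rw [e6, ha]
        have e7 : (4 : ℝ) ^ b = (2 : ℝ) ^ b * (2 : ℝ) ^ b := by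
          rw [← mul_zpow]
          norm_num
        rw [e7]
        field_simp

theorem hECO (hPT : Pool.Agent.Helper20.RG.StPT) (hLGR : Pool.Agent.Helper20.RL.StLGR) :
    StECO := by
  intro F s a b n D ϑ c r hs hBM hab hD hϑ hF hr
  have hb : (0 : ℝ) < (2 : ℝ) ^ b := by positivity
  refine ⟨?_, ?_⟩
  · rw [os_eq hPT]
    exact MeasurableSet.iUnion fun p => measurableSet_Ico
  set R0 : ℤ × ℤ → Prop := fun p => p.1 ≤ b ∧ RR F s a n ϑ p ∧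
    ∃ t : ℝ, ⌊t / (2 : ℝ) ^ p.1⌋ = p.2 ∧ |t - c| ≤ r + 3 * (2 : ℝ) ^ b with hR0
  set M : Set (ℤ × ℤ) := {p | R0 p ∧ ∀ w' : ℤ, p.1 < w' → ∀ t : ℝ, ⌊t / (2 : ℝ) ^ p.1⌋ = p.2 →
    ¬ R0 (w', ⌊t / (2 : ℝ) ^ w'⌋)} with hM
  have hcov : {ρ : ℝ | |ρ - c| ≤ r ∧ ρ ∈ Os F s a b ϑ n} ⊆ ⋃ p : M, Nb p := by
    rintro ρ ⟨hρ, y, w, hw, hri, hy, hρ2⟩
    set t := pr s y with ht
    have hww : (2 : ℝ) ^ w ≤ (2 : ℝ) ^ b := zpow_le_zpow_right₀ (by norm_num) hw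
    have htc : |t - c| ≤ r + 3 * (2 : ℝ) ^ b := by
      have : t - c = (ρ - c) - (ρ - t) := by ring
      rw [this]
      refine (abs_sub _ _).trans ?_
      linarith
    have h0 : R0 (w, ⌊t / (2 : ℝ) ^ w⌋) := ⟨hw, (rich_iff hy).1 hri, t, rfl, htc⟩
    obtain ⟨w₀, hw0, hmax⟩ := Int.exists_greatest_of_bdd
      (P := fun z => R0 (z, ⌊t / (2 : ℝ) ^ z⌋)) ⟨b, fun z hz => hz.1⟩ ⟨w, h0⟩
    have hw1 : w ≤ w₀ := hmax w h0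
    refine mem_iUnion.2 ⟨⟨(w₀, ⌊t / (2 : ℝ) ^ w₀⌋), hw0, ?_⟩, ?_⟩
    · intro w' hw' t' ht' hR
      simp only at hw' ht'
      rw [nest hPT hLGR hw'.le ht'] at hR
      exact absurd (hmax w' hR) (not_le.2 hw')
    · obtain ⟨h1, h2⟩ := fl_bd (w := w₀) (t := t) rfl
      obtain ⟨h3, h4⟩ := abs_le.1 hρ2
      have hw2 : (2 : ℝ) ^ w ≤ (2 : ℝ) ^ w₀ := zpow_le_zpow_right₀ (by norm_num) hw1
      constructor
      · show ((⌊t / (2 : ℝ) ^ w₀⌋ : ℝ) - 3) * (2 : ℝ) ^ w₀ ≤ ρ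
        linarith
      · show ρ < ((⌊t / (2 : ℝ) ^ w₀⌋ : ℝ) + 4) * (2 : ℝ) ^ w₀
        linarith
  have hdis : Pairwise (Function.onFun Disjoint fun p : M => F ∩ Cc s a n p) := by
    intro p p' hpp
    refine disjoint_left.2 fun x hx hx' => ?_
    obtain ⟨_, _, hx2⟩ := hx
    obtain ⟨_, _, hx2'⟩ := hx'
    rcases lt_trichotomy (p : ℤ × ℤ).1 (p' : ℤ × ℤ).1 with h | h | h
    · refine p.2.2 _ h _ hx2 ?_
      rw [hx2']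
      exact p'.2.1
    · refine hpp (Subtype.ext (Prod.ext h ?_))
      rw [← hx2, ← hx2', h]
    · refine p'.2.2 _ h _ hx2' ?_
      rw [hx2]
      exact p.2.1
  have hsub : (⋃ p : M, F ∩ Cc s a n p) ⊆
      F ∩ {x : Pl | ⌊x 0 / (2 : ℝ) ^ a⌋ = n ∧ |pr s x - c| ≤ r + 4 * (2 : ℝ) ^ b} := by
    intro x hx
    obtain ⟨p, hxF, hx1, hx2⟩ := mem_iUnion.1 hx
    refine ⟨hxF, hx1, ?_⟩
    obtain ⟨⟨hpb, _, t, ht1, ht2⟩, _⟩ := p.2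
    obtain ⟨h1, h2⟩ := fl_bd hx2
    obtain ⟨h3, h4⟩ := fl_bd ht1
    have hww : (2 : ℝ) ^ (p : ℤ × ℤ).1 ≤ (2 : ℝ) ^ b := zpow_le_zpow_right₀ (by norm_num) hpb
    obtain ⟨h5, h6⟩ := abs_le.1 ht2
    rw [abs_le]
    constructor <;> linarith
  have hpar := par_le hPT F s a b n D c r hs hab hD hF hr
  have hterm : ∀ p : M, volume (Nb (p : ℤ × ℤ)) ≤
      ENNReal.ofReal (7 / (ϑ * (2 : ℝ) ^ a)) * volume (F ∩ Cc s a n p) := by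
    intro p
    have h1 : RR F s a n ϑ p := p.2.1.2.1
    refine le_trans (le_of_eq ?_) (mul_le_mul_right h1 _)
    unfold Nb
    rw [Real.volume_Ico, ← ENNReal.ofReal_mul (by positivity), zpow_add₀ (by norm_num)]
    congr 1
    have : (2 : ℝ) ^ a ≠ 0 := by positivity
    field_simp
    ring
  calc volume {ρ : ℝ | |ρ - c| ≤ r ∧ ρ ∈ Os F s a b ϑ n}
      ≤ volume (⋃ p : M, Nb (p : ℤ × ℤ)) := measure_mono hcov
    _ ≤ ∑' p : M, volume (Nb (p : ℤ × ℤ)) := measure_iUnion_le _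
    _ ≤ ∑' p : M, ENNReal.ofReal (7 / (ϑ * (2 : ℝ) ^ a)) * volume (F ∩ Cc s a n p) :=
        ENNReal.tsum_le_tsum hterm
    _ = ENNReal.ofReal (7 / (ϑ * (2 : ℝ) ^ a)) * volume (⋃ p : M, F ∩ Cc s a n p) := by
        rw [ENNReal.tsum_mul_left, measure_iUnion hdis
          (fun p => hBM.1.inter (cc_meas hPT hLGR s a n p))]
    _ ≤ ENNReal.ofReal (7 / (ϑ * (2 : ℝ) ^ a)) * ENNReal.ofReal (13 * D * (2 : ℝ) ^ a * r) :=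
        mul_le_mul_right ((measure_mono hsub).trans hpar) _
    _ = ENNReal.ofReal (91 * D / ϑ * r) := by
        rw [← ENNReal.ofReal_mul (by positivity)]
        congr 1
        have : (2 : ℝ) ^ a ≠ 0 := by positivity
        field_simp
        ring

end Pool.Agent.Helper12.EP
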